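import Mathlib

set_option autoImplicit false

/-! Real inequalities for the failure term of the frog model. -/

namespace Pool.Agent.H109Z.FrogGW

open Real

lemma EJ_powexp {c : ℝ} (hc : 0 < c) (r : ℕ) :
    ∃ B : ℝ, 0 ≤ B ∧ ∀ x : ℝ, 0 ≤ x → x ^ r * exp (-(c * x)) ≤ B := by
  refine ⟨(r.factorial : ℝ) / c ^ r, by positivity, fun x hx => ?_⟩
  have h := Real.pow_div_factorial_le_exp (c * x) (by positivity) r
  rw [div_le_iff₀ (by positivity), mul_pow] at h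
  rw [le_div_iff₀ (by positivity), exp_neg]
  have he := exp_pos (c * x)
  calc x ^ r * (exp (c * x))⁻¹ * c ^ r = (c ^ r * x ^ r) * (exp (c * x))⁻¹ := by ring
    _ ≤ (exp (c * x) * r.factorial) * (exp (c * x))⁻¹ := by gcongr
    _ = r.factorial := by field_simp

lemma EJ_one_sub_exp {u : ℝ} (hu : 0 ≤ u) : min u 1 / 2 ≤ 1 - exp (-u) := by
  have key : ∀ v : ℝ, 0 ≤ v → v ≤ 1 → v / 2 ≤ 1 - exp (-v) := by
    intro v h0 h1
    have h2 : v + 1 ≤ exp v := add_one_le_exp v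
    have h3 : exp (-v) ≤ 1 / (v + 1) := by
      rw [exp_neg, one_div]
      exact inv_anti₀ (by linarith) h2
    have h4 : 1 / (v + 1) ≤ 1 - v / 2 := by
      rw [div_le_iff₀ (by linarith)]
      nlinarith
    linarith
  have h5 := key (min u 1) (le_min hu zero_le_one) (min_le_right _ _)
  have h6 : exp (-u) ≤ exp (-min u 1) := exp_le_exp.2 (neg_le_neg (min_le_left _ _))
  linarith

lemma EJ_scale {q : ℕ} {c B h g : ℝ} (hB : ∀ x : ℝ, 0 ≤ x → x ^ q * exp (-(c * x)) ≤ B)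
    (hB0 : 0 ≤ B) (hh : 0 ≤ h) (hg : 0 < g) (hg1 : g ≤ 1) {u : ℝ} (hu : c * (h * g) ≤ u) :
    h ^ q * exp (-u) ≤ B * (1 / g) ^ (4 * q) := by
  have h1 : 1 ≤ 1 / g := by rw [le_div_iff₀ hg]; linarith
  have h2 : (1 / g) ^ q ≤ (1 / g) ^ (4 * q) := pow_le_pow_right₀ h1 (by omega)
  have h3 := hB (h * g) (by positivity)
  have h4 : exp (-u) ≤ exp (-(c * (h * g))) := exp_le_exp.2 (neg_le_neg hu)
  have h5 : h ^ q = (h * g) ^ q * (1 / g) ^ q := by
    rw [← mul_pow]; congr 1; field_simp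
  calc h ^ q * exp (-u) ≤ h ^ q * exp (-(c * (h * g))) := by gcongr
    _ = ((h * g) ^ q * exp (-(c * (h * g)))) * (1 / g) ^ q := by rw [h5]; ring
    _ ≤ B * (1 / g) ^ (4 * q) := by gcongr

lemma EJ_real (q : ℕ) {γ0 π0 : ℝ} (hγ : 0 < γ0) (hπ : 0 < π0) :
    ∃ B : ℝ, 0 ≤ B ∧ ∀ h k gc gb D mc : ℝ, 0 ≤ h → 1 ≤ k → 0 < gc → gc ≤ 1 → 0 < gb → gb ≤ 1 →
      1 ≤ D → D ≤ 2 * k → h * gc / 2 ≤ mc →
      (k ^ 2 ≤ h → h ^ q * exp (-(mc * gb / D)) ≤ B * ((1 / gc) ^ (4 * q) + (1 / gb) ^ (4 * q))) ∧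
      (h < k ^ 2 → π0 * k < 32 → h ^ q ≤ B * ((1 / gc) ^ (4 * q) + (1 / gb) ^ (4 * q))) ∧
      ∀ N : ℝ, h < k ^ 2 → π0 * k / 16 ≤ N →
        h ^ q * (exp (-(mc * γ0 * N / D)) +
          2 * exp (-((1 - exp (-(h * γ0 * γ0 / D))) * N / 4)) +
          exp (-(h * γ0 * gb * N / (2 * D)))) ≤
        B * ((1 / gc) ^ (4 * q) + (1 / gb) ^ (4 * q)) := by
  obtain ⟨B0, hB0, H0⟩ := EJ_powexp one_pos (2 * q)
  obtain ⟨B1, hB1, H1⟩ := EJ_powexp (c := γ0 * π0 / 64) (by positivity) q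
  obtain ⟨B2, hB2, H2⟩ := EJ_powexp (c := γ0 * γ0 * π0 / 256) (by positivity) q
  obtain ⟨B3, hB3, H3⟩ := EJ_powexp (c := π0 / 128) (by positivity) (2 * q)
  refine ⟨B0 * 16 ^ q + ((32 / π0) ^ 2) ^ q + (B1 + 2 * (B2 + B3)), by positivity, ?_⟩
  intro h k gc gb D mc hh hk hgc hgc1 hgb hgb1 hD hD2 hm
  have ha : 1 ≤ 1 / gc := by rw [le_div_iff₀ hgc]; linarith
  have hb : 1 ≤ 1 / gb := by rw [le_div_iff₀ hgb]; linarith
  have ha' : 1 ≤ (1 / gc) ^ (4 * q) := one_le_pow₀ ha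
  have hb' : 1 ≤ (1 / gb) ^ (4 * q) := one_le_pow₀ hb
  have hD0 : 0 < D := by linarith
  have hk0 : 0 < k := by linarith
  have hm0 : 0 ≤ mc := le_trans (by positivity) hm
  set S := (1 / gc) ^ (4 * q) + (1 / gb) ^ (4 * q) with hS
  have hS1 : 1 ≤ S := by linarith
  have hp1 : 0 ≤ B0 * 16 ^ q := by positivity
  have hp2 : 0 ≤ ((32 / π0) ^ 2) ^ q := by positivity
  have hp3 : 0 ≤ B1 + 2 * (B2 + B3) := by positivity
  refine ⟨fun hkh => ?_, fun hkh hs => ?_, fun N hkh hN => ?_⟩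
  · set u := mc * gb / D with hu
    have hu0 : 0 ≤ u := by positivity
    have hu1 : h * gc * gb / (4 * k) ≤ u := by
      rw [hu, div_le_div_iff₀ (by positivity) hD0]
      have : h * gc * gb * D ≤ h * gc * gb * (2 * k) := by gcongr
      nlinarith [mul_le_mul_of_nonneg_right hm (show 0 ≤ gb * (4 * k) by positivity)]
    have hu2 : h * (gc * gb) ^ 2 / 16 ≤ u ^ 2 := by
      have e1 : (h * gc * gb / (4 * k)) ^ 2 ≤ u ^ 2 := by gcongr
      refine le_trans ?_ e1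
      rw [div_pow, div_le_div_iff₀ (by positivity) (by positivity)]
      have : h * (gc * gb) ^ 2 * (16 * k ^ 2) ≤ h * (gc * gb) ^ 2 * (16 * h) := by gcongr
      nlinarith
    have hu3 : h ≤ u ^ 2 * (16 * ((1 / gc) ^ 2 * (1 / gb) ^ 2)) := by
      have : h = h * (gc * gb) ^ 2 / 16 * (16 * ((1 / gc) ^ 2 * (1 / gb) ^ 2)) := by
        field_simp
      calc h = _ := this
        _ ≤ _ := by gcongr
    have hu4 : h ^ q ≤ u ^ (2 * q) * (16 ^ q * ((1 / gc) ^ (2 * q) * (1 / gb) ^ (2 * q))) := by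
      have := pow_le_pow_left₀ hh hu3 q
      simpa only [mul_pow, ← pow_mul] using this
    have hu5 : (1 / gc) ^ (2 * q) * (1 / gb) ^ (2 * q) ≤ S := by
      have e1 : (1 / gc) ^ (4 * q) = ((1 / gc) ^ (2 * q)) ^ 2 := by
        rw [← pow_mul]; congr 1; ring
      have e2 : (1 / gb) ^ (4 * q) = ((1 / gb) ^ (2 * q)) ^ 2 := by
        rw [← pow_mul]; congr 1; ring
      rw [hS, e1, e2]
      nlinarith [sq_nonneg ((1 / gc) ^ (2 * q) - (1 / gb) ^ (2 * q)),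
        sq_nonneg ((1 / gc) ^ (2 * q)), sq_nonneg ((1 / gb) ^ (2 * q))]
    have h6 := H0 u hu0
    rw [one_mul] at h6
    calc h ^ q * exp (-u)
        ≤ u ^ (2 * q) * (16 ^ q * ((1 / gc) ^ (2 * q) * (1 / gb) ^ (2 * q))) * exp (-u) := by
          gcongr
      _ = (u ^ (2 * q) * exp (-u)) * (16 ^ q * ((1 / gc) ^ (2 * q) * (1 / gb) ^ (2 * q))) := by
          ring
      _ ≤ B0 * (16 ^ q * S) := by gcongr
      _ = (B0 * 16 ^ q) * S := by ring
      _ ≤ _ := by gcongr; linarith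
  · have h1 : k ≤ 32 / π0 := by rw [le_div_iff₀ hπ]; linarith
    have h2 : h ≤ (32 / π0) ^ 2 := hkh.le.trans (by gcongr)
    calc h ^ q ≤ ((32 / π0) ^ 2) ^ q := by gcongr
      _ ≤ ((32 / π0) ^ 2) ^ q * S := le_mul_of_one_le_right hp2 hS1
      _ ≤ _ := by gcongr; linarith
  · have hN0 : 0 ≤ N := le_trans (by positivity) hN
    have hND : π0 / 32 ≤ N / D := by
      rw [le_div_iff₀ hD0]
      have : π0 / 32 * D ≤ π0 / 32 * (2 * k) := by gcongr
      linarith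
    have t1 : h ^ q * exp (-(mc * γ0 * N / D)) ≤ B1 * (1 / gc) ^ (4 * q) := by
      refine EJ_scale H1 hB1 hh hgc hgc1 ?_
      calc γ0 * π0 / 64 * (h * gc) = (h * gc / 2) * γ0 * (π0 / 32) := by ring
        _ ≤ mc * γ0 * (N / D) := by gcongr
        _ = _ := by ring
    have t3 : h ^ q * exp (-(h * γ0 * gb * N / (2 * D))) ≤ B1 * (1 / gb) ^ (4 * q) := by
      refine EJ_scale H1 hB1 hh hgb hgb1 ?_
      calc γ0 * π0 / 64 * (h * gb) = (h * γ0 * gb / 2) * (π0 / 32) := by ring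
        _ ≤ (h * γ0 * gb / 2) * (N / D) := by gcongr
        _ = _ := by field_simp
    have t2 : h ^ q * exp (-((1 - exp (-(h * γ0 * γ0 / D))) * N / 4)) ≤ B2 + B3 := by
      have hu0 : 0 ≤ h * γ0 * γ0 / D := by positivity
      have h7 := EJ_one_sub_exp hu0
      rcases le_total (h * γ0 * γ0 / D) 1 with hu | hu
      · rw [min_eq_left hu] at h7
        have h8 : γ0 * γ0 * π0 / 256 * h ≤ (1 - exp (-(h * γ0 * γ0 / D))) * N / 4 := by
          calc γ0 * γ0 * π0 / 256 * h = (h * γ0 * γ0 / 8) * (π0 / 32) := by ring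
            _ ≤ (h * γ0 * γ0 / 8) * (N / D) := by gcongr
            _ = (h * γ0 * γ0 / D / 2) * N / 4 := by field_simp; ring
            _ ≤ _ := by gcongr
        have h9 := H2 h hh
        have h10 : h ^ q * exp (-((1 - exp (-(h * γ0 * γ0 / D))) * N / 4)) ≤
            h ^ q * exp (-(γ0 * γ0 * π0 / 256 * h)) := by gcongr
        linarith
      · rw [min_eq_right hu] at h7
        have h8 : π0 / 128 * k ≤ (1 - exp (-(h * γ0 * γ0 / D))) * N / 4 := by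
          calc π0 / 128 * k = (1 / 2) * (π0 * k / 16) / 4 := by ring
            _ ≤ _ := by gcongr
        have h9 := H3 k hk0.le
        have h10 : h ^ q * exp (-((1 - exp (-(h * γ0 * γ0 / D))) * N / 4)) ≤
            k ^ (2 * q) * exp (-(π0 / 128 * k)) := by
          rw [pow_mul]
          gcongr
        linarith
    have t4 : B2 + B3 ≤ (B2 + B3) * S := le_mul_of_one_le_right (by positivity) hS1
    calc _ = h ^ q * exp (-(mc * γ0 * N / D)) +
          2 * (h ^ q * exp (-((1 - exp (-(h * γ0 * γ0 / D))) * N / 4))) +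
          h ^ q * exp (-(h * γ0 * gb * N / (2 * D))) := by ring
      _ ≤ B1 * (1 / gc) ^ (4 * q) + 2 * ((B2 + B3) * S) + B1 * (1 / gb) ^ (4 * q) := by
          linarith
      _ ≤ (B1 + 2 * (B2 + B3)) * S := by rw [hS]; exact le_of_eq (by ring)
      _ ≤ _ := mul_le_mul_of_nonneg_right (by linarith) (by linarith)

end Pool.Agent.H109Z.FrogGW
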