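import Pool.Agent.H109Z.Frog.Spec
import Pool.Agent.H486Z.Frog.EJReal

set_option autoImplicit false

/-! The failure term of the frog model: `EJStmt`. -/

namespace Pool.Agent.H109Z.FrogGW

open Function Finset
open scoped ENNReal NNReal

/-- negative moment weight -/
noncomputable def EJ_I (r : ℕ) (y : ℝ × ℝ) : ℝ≥0∞ :=
  if 0 < y.1 then ENNReal.ofReal (1 / y.1) ^ r else 0

/-- probability that `b` is not reached from `c` -/
noncomputable def EJ_P (lam : ℝ) (k : ℕ) (x : ℕ → ℝ × ℝ) (c b : ℕ) : ℝ≥0∞ :=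
  EL (rows (fun i => (x i).1) k (update (fun i => (x i).2) c (lam + (x c).2))) fun r =>
    if b ∈ Rch k r c then 0 else 1

/-- harmonic weight -/
noncomputable def EJ_p (k : ℕ) (x : ℕ → ℝ × ℝ) (b : ℕ) : ℝ≥0∞ :=
  ENNReal.ofReal ((x b).1 / Cs (fun i => (x i).1) k)

open Classical in
/-- the good children -/
noncomputable def EJ_G (γ0 : ℝ) (h k : ℕ) (x : ℕ → ℝ × ℝ) : Finset ℕ :=
  (range k).filter fun j => γ0 ≤ (x j).1 ∧ dl h (x j) ≤ 0

/-- the term for few good children -/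
noncomputable def EJ_E (q : ℕ) (γ0 π0 : ℝ) (h k : ℕ) (x : ℕ → ℝ × ℝ) : ℝ≥0∞ :=
  if ((EJ_G γ0 h k x).card : ℝ) < π0 * k / 8 then (k : ℝ≥0∞) ^ (2 * q) else 0

lemma EJ_P_le_one (lam : ℝ) (k : ℕ) (x : ℕ → ℝ × ℝ) (c b : ℕ) : EJ_P lam k x c b ≤ 1 :=
  EL_le_const _ fun r _ => by split_ifs <;> simp

lemma EJ_P_self (lam : ℝ) {k : ℕ} (x : ℕ → ℝ × ℝ) {c : ℕ} (hc : c < k) :
    EJ_P lam k x c c = 0 := by
  unfold EJ_P
  simp only [self_mem_Rch _ hc, if_true, EL_const]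

lemma EJ_fail_le (lam : ℝ) {k : ℕ} {x : ℕ → ℝ × ℝ} (hx : ∀ i < k, 0 ≤ (x i).1) :
    failP lam k x ≤ ∑ c ∈ range k, EJ_p k x c * ∑ b ∈ range k, EJ_p k x b * EJ_P lam k x c b := by
  rcases (Cs_nonneg hx).eq_or_lt with h0 | h0
  · unfold failP
    simp [← h0, EL_const]
  · unfold failP
    rw [EL_lead hx h0]
    refine le_of_eq (Finset.sum_congr rfl fun c _ => ?_)
    congr 1
    unfold EJ_P
    simp only [← EL_const_mul]
    rw [← EL_sum]
    congr 1
    funext r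
    rw [Finset.sdiff_eq_filter, Finset.sum_filter]
    refine Finset.sum_congr rfl fun b _ => ?_
    by_cases hb : b ∈ Rch k r c <;> simp [hb, EJ_p]

lemma EJ_p_sum {k : ℕ} {x : ℕ → ℝ × ℝ} (hx : ∀ i < k, 0 ≤ (x i).1) :
    ∑ b ∈ range k, EJ_p k x b ≤ 1 := by
  unfold EJ_p
  rw [← ENNReal.ofReal_sum_of_nonneg fun i hi =>
    div_nonneg (hx i (mem_range.1 hi)) (Cs_nonneg hx), ← Finset.sum_div]
  exact ENNReal.ofReal_le_one.2 (div_self_le_one _)

lemma EJ_p_le_one {k : ℕ} {x : ℕ → ℝ × ℝ} (hx : ∀ i < k, 0 ≤ (x i).1) {c : ℕ} (hc : c < k) :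
    EJ_p k x c ≤ 1 :=
  (Finset.single_le_sum (f := EJ_p k x) (fun _ _ => zero_le) (mem_range.2 hc)).trans (EJ_p_sum hx)

lemma EJ_p_le {k : ℕ} {x : ℕ → ℝ × ℝ} (hx : ∀ i < k, 0 ≤ (x i).1 ∧ (x i).1 ≤ 1) {c : ℕ}
    (hc : c < k) : EJ_p k x c ≤ ENNReal.ofReal (1 / (1 + sib x k c)) := by
  unfold EJ_p
  rw [Cs_eq_sib x hc]
  have hs : 0 ≤ sib x k c :=
    Finset.sum_nonneg fun j hj => (hx j (mem_range.1 (mem_of_mem_erase hj))).1
  obtain ⟨h0, h1⟩ := hx c hc
  refine ENNReal.ofReal_le_ofReal ?_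
  rcases h0.eq_or_lt with h | h
  · rw [← h, zero_div]; positivity
  · rw [div_le_div_iff₀ (by positivity) (by positivity)]
    nlinarith

lemma EJ_p_zero {k : ℕ} {x : ℕ → ℝ × ℝ} {c : ℕ} (h : (x c).1 = 0) : EJ_p k x c = 0 := by
  simp [EJ_p, h]

lemma EJ_cast (h q : ℕ) (t : ℝ) :
    (h : ℝ≥0∞) ^ q * ENNReal.ofReal t = ENNReal.ofReal ((h : ℝ) ^ q * t) := by
  rw [ENNReal.ofReal_mul (by positivity), ENNReal.ofReal_pow (by positivity),
    ENNReal.ofReal_natCast]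

lemma EJ_rhs {B : ℝ} (hB : 0 ≤ B) (r : ℕ) {y z : ℝ × ℝ} (hy : 0 < y.1) (hz : 0 < z.1) :
    ENNReal.ofReal (B * ((1 / y.1) ^ r + (1 / z.1) ^ r)) =
      ENNReal.ofReal B * (EJ_I r y + EJ_I r z) := by
  rw [ENNReal.ofReal_mul hB, ENNReal.ofReal_add (by positivity) (by positivity),
    ENNReal.ofReal_pow (by positivity), ENNReal.ofReal_pow (by positivity)]
  simp only [EJ_I, if_pos hy, if_pos hz]

lemma EJ_upd_nonneg {lam : ℝ} (hl : 0 ≤ lam) {k : ℕ} {x : ℕ → ℝ × ℝ} (hx : ∀ i < k, 0 ≤ (x i).2)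
    (c : ℕ) : ∀ i < k, 0 ≤ update (fun i => (x i).2) c (lam + (x c).2) i := by
  intro i hi
  by_cases h : i = c
  · subst h
    rw [update_self]
    exact add_nonneg hl (hx i hi)
  · rw [update_of_ne h]
    exact hx i hi

lemma EJ_case2 (h2 : D2Stmt) (h3 : D3Stmt) (q : ℕ) {γ0 π0 : ℝ} (hγ : 0 < γ0) (hπ : 0 < π0) :
    ∃ B : ℝ, ∀ (lam : ℝ) (h k : ℕ) (x : ℕ → ℝ × ℝ) (c b : ℕ), 0 ≤ lam →
      (∀ i < k, 0 ≤ (x i).1 ∧ (x i).1 ≤ 1) → (∀ i < k, 0 ≤ (x i).2) → c < k → b < k →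
      0 < (x c).1 → 0 < (x b).1 → dl h (x c) ≤ h / 2 →
      (h : ℝ≥0∞) ^ q * EJ_P lam k x c b ≤
        ENNReal.ofReal B * (EJ_I (4 * q) (x c) + EJ_I (4 * q) (x b)) + EJ_E q γ0 π0 h k x := by
  obtain ⟨B, hB, H⟩ := EJ_real q hγ hπ
  refine ⟨B, fun lam h k x c b hl hx hm hc hb gc gb hd => ?_⟩
  have hx0 : ∀ i < k, 0 ≤ (x i).1 := fun i hi => (hx i hi).1
  have hk : (1 : ℝ) ≤ k := by exact_mod_cast (show 1 ≤ k by omega)
  have hC0 := Cs_nonneg hx0
  have hC1 : Cs (fun i => (x i).1) k ≤ k := Cs_le fun i hi => (hx i hi).2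
  have hmc : (h : ℝ) * (x c).1 / 2 ≤ lam + (x c).2 := by
    unfold dl at hd
    rw [div_le_iff₀ gc] at hd
    linarith
  obtain ⟨r1, r2, r3⟩ := H h k (x c).1 (x b).1 (1 + Cs (fun i => (x i).1) k) (lam + (x c).2)
    (by positivity) hk gc (hx c hc).2 gb (hx b hb).2 (by linarith) (by linarith) hmc
  rw [← EJ_rhs hB _ gc gb]
  have hu := EJ_upd_nonneg hl hm c
  rcases le_or_gt ((k : ℝ) ^ 2) h with hkh | hkh
  · refine le_trans ?_ le_self_add
    have := h2 _ _ k c b hx0 hu hc hb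
    rw [update_self] at this
    refine (mul_le_mul' le_rfl this).trans ?_
    unfold ee
    rw [EJ_cast]
    exact ENNReal.ofReal_le_ofReal (r1 hkh)
  by_cases hs : π0 * k < 32
  · refine le_trans ?_ le_self_add
    refine (mul_le_mul' le_rfl (EJ_P_le_one _ _ _ _ _)).trans ?_
    rw [← ENNReal.ofReal_one, EJ_cast, mul_one]
    exact ENNReal.ofReal_le_ofReal (r2 hkh hs)
  by_cases hcard : ((EJ_G γ0 h k x).card : ℝ) < π0 * k / 8
  · refine le_trans ?_ le_add_self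
    refine (mul_le_mul' le_rfl (EJ_P_le_one _ _ _ _ _)).trans ?_
    unfold EJ_E
    rw [if_pos hcard, mul_one, pow_mul]
    have : h ≤ k ^ 2 := by exact_mod_cast hkh.le
    gcongr
    exact_mod_cast this
  refine le_trans ?_ le_self_add
  have hN : π0 * k / 16 ≤ (((EJ_G γ0 h k x).erase c).card : ℝ) := by
    have e1 : (EJ_G γ0 h k x).card ≤ ((EJ_G γ0 h k x).erase c).card + 1 := by
      have := Finset.pred_card_le_card_erase (s := EJ_G γ0 h k x) (a := c)
      omega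
    have e2 : ((EJ_G γ0 h k x).card : ℝ) ≤ ((EJ_G γ0 h k x).erase c).card + 1 := by
      exact_mod_cast e1
    linarith
  have := h3 _ _ k c b ((EJ_G γ0 h k x).erase c) γ0 (h * γ0) hx0 hu hc hb
    ((erase_subset _ _).trans (by classical exact filter_subset _ _)) (notMem_erase _ _) hγ.le
    (by positivity) (by
      intro j hj
      have hj1 := ne_of_mem_erase hj
      have hj2 := mem_of_mem_erase hj
      simp only [EJ_G, mem_filter] at hj2
      refine ⟨hj2.2.1, ?_⟩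
      rw [update_of_ne hj1]
      have hp : 0 < (x j).1 := hγ.trans_le hj2.2.1
      have hd2 := hj2.2.2
      unfold dl at hd2
      rw [div_le_iff₀ hp] at hd2
      have : (h : ℝ) * γ0 ≤ h * (x j).1 := mul_le_mul_of_nonneg_left hj2.2.1 (by positivity)
      linarith)
  rw [update_self] at this
  refine (mul_le_mul' le_rfl this).trans ?_
  unfold ee
  rw [← ENNReal.ofReal_ofNat, ← ENNReal.ofReal_mul (by positivity),
    ← ENNReal.ofReal_add (by positivity) (by positivity),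
    ← ENNReal.ofReal_add (by positivity) (by positivity), EJ_cast]
  exact ENNReal.ofReal_le_ofReal (r3 _ hkh hN)

/-- the weight of case (1) -/
noncomputable def EJ_A (K : ℕ) (η : ℝ) (e : ℝ≥0∞) (k c : ℕ) (x : ℕ → ℝ × ℝ) : ℝ≥0∞ :=
  (if K < k then ENNReal.ofReal (1 / (1 + sib x k c)) else 0) +
    if K < k then 0 else ∑ b ∈ (range k).erase c, (ENNReal.ofReal η * EJ_I 1 (x b) + e)

lemma EJ_A_update (K : ℕ) (η : ℝ) (e : ℝ≥0∞) (k c : ℕ) (x : ℕ → ℝ × ℝ) (a : ℝ × ℝ) :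
    EJ_A K η e k c (update x c a) = EJ_A K η e k c x := by
  unfold EJ_A
  rw [sib_update]
  congr 2
  exact Finset.sum_congr rfl fun j hj => by rw [update_of_ne (ne_of_mem_erase hj)]

lemma EJ_case1 (h2 : D2Stmt) (K : ℕ) {η lam : ℝ} (hη : 0 < η) (hl : 0 ≤ lam) {k : ℕ}
    {x : ℕ → ℝ × ℝ} (hx : ∀ i < k, 0 ≤ (x i).1 ∧ (x i).1 ≤ 1) (hm : ∀ i < k, 0 ≤ (x i).2) {c : ℕ}
    (hc : c < k) :
    EJ_p k x c * ∑ b ∈ range k, EJ_p k x b * EJ_P lam k x c b ≤
      EJ_A K η (ee (lam * η / (K + 1))) k c x := by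
  have hx0 : ∀ i < k, 0 ≤ (x i).1 := fun i hi => (hx i hi).1
  unfold EJ_A
  by_cases hK : K < k
  · rw [if_pos hK, if_pos hK, add_zero]
    have : ∑ b ∈ range k, EJ_p k x b * EJ_P lam k x c b ≤ 1 :=
      (Finset.sum_le_sum fun b _ => mul_le_of_le_one_right' (EJ_P_le_one _ _ _ _ _)).trans
        (EJ_p_sum hx0)
    exact (mul_le_of_le_one_right' this).trans (EJ_p_le hx hc)
  rw [if_neg hK, if_neg hK, zero_add]
  refine (mul_le_of_le_one_left' (EJ_p_le_one hx0 hc)).trans ?_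
  rw [← Finset.add_sum_erase _ _ (mem_range.2 hc), EJ_P_self lam x hc, mul_zero, zero_add]
  refine Finset.sum_le_sum fun b hb => ?_
  have hb' : b < k := mem_range.1 (mem_of_mem_erase hb)
  rcases (hx0 b hb').eq_or_lt with h0 | h0
  · rw [EJ_p_zero h0.symm, zero_mul]
    exact zero_le
  refine (mul_le_of_le_one_left' (EJ_p_le_one hx0 hb')).trans ?_
  rcases le_or_gt η (x b).1 with h1 | h1
  · refine le_trans ?_ le_add_self
    have := h2 _ _ k c b hx0 (EJ_upd_nonneg hl hm c) hc hb'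
    rw [update_self] at this
    refine this.trans (ee_anti ?_)
    have hC0 := Cs_nonneg hx0
    have hC1 : Cs (fun i => (x i).1) k ≤ k := Cs_le fun i hi => (hx i hi).2
    have hkK : (k : ℝ) ≤ K := by exact_mod_cast not_lt.1 hK
    have := hm c hc
    exact div_le_div₀ (by positivity) (mul_le_mul (by linarith) h1 hη.le (by linarith))
      (by positivity) (by linarith)
  · refine le_trans ?_ le_self_add
    refine (EJ_P_le_one _ _ _ _ _).trans ?_
    unfold EJ_I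
    rw [if_pos h0, pow_one, ← ENNReal.ofReal_mul hη.le, ← ENNReal.ofReal_one]
    refine ENNReal.ofReal_le_ofReal ?_
    rw [mul_one_div, le_div_iff₀ h0]
    linarith

lemma EJ_point (h2 : D2Stmt) (h3 : D3Stmt) (q : ℕ) {γ0 π0 : ℝ} (hγ : 0 < γ0) (hπ : 0 < π0) :
    ∃ B : ℝ, ∀ (K : ℕ) (η lam : ℝ) (h k : ℕ) (x : ℕ → ℝ × ℝ), 0 < η → 0 ≤ lam →
      (∀ i < k, 0 ≤ (x i).1 ∧ (x i).1 ≤ 1) → (∀ i < k, 0 ≤ (x i).2) →
      (h : ℝ≥0∞) ^ q * failP lam k x ≤
        2 ^ q * (∑ c ∈ range k, EJ_A K η (ee (lam * η / (K + 1))) k c x *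
          ENNReal.ofReal (dl h (x c)) ^ q) +
        (2 * ENNReal.ofReal B * (∑ c ∈ range k,
          ENNReal.ofReal (1 / (1 + sib x k c)) * EJ_I (4 * q) (x c)) + EJ_E q γ0 π0 h k x) := by
  obtain ⟨B, H⟩ := EJ_case2 h2 h3 q hγ hπ
  refine ⟨B, fun K η lam h k x hη hl hx hm => ?_⟩
  have hx0 : ∀ i < k, 0 ≤ (x i).1 := fun i hi => (hx i hi).1
  refine (mul_le_mul' le_rfl (EJ_fail_le lam hx0)).trans ?_
  set E := EJ_E q γ0 π0 h k x
  set T := ∑ c ∈ range k, EJ_p k x c * EJ_I (4 * q) (x c) with hT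
  have step : ∀ c ∈ range k,
      (h : ℝ≥0∞) ^ q * (EJ_p k x c * ∑ b ∈ range k, EJ_p k x b * EJ_P lam k x c b) ≤
        2 ^ q * (EJ_A K η (ee (lam * η / (K + 1))) k c x * ENNReal.ofReal (dl h (x c)) ^ q) +
        (ENNReal.ofReal B * (EJ_p k x c * EJ_I (4 * q) (x c)) +
          EJ_p k x c * (ENNReal.ofReal B * T + E)) := by
    intro c hc'
    have hc := mem_range.1 hc'
    rcases le_or_gt (dl h (x c)) (h / 2) with hd | hd
    · refine le_trans ?_ le_add_self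
      rcases (hx0 c hc).eq_or_lt with h0 | h0
      · rw [EJ_p_zero h0.symm]
        simp
      have inner : (h : ℝ≥0∞) ^ q * ∑ b ∈ range k, EJ_p k x b * EJ_P lam k x c b ≤
          ENNReal.ofReal B * EJ_I (4 * q) (x c) + (ENNReal.ofReal B * T + E) := by
        calc (h : ℝ≥0∞) ^ q * ∑ b ∈ range k, EJ_p k x b * EJ_P lam k x c b
            ≤ ∑ b ∈ range k, (EJ_p k x b * (ENNReal.ofReal B * EJ_I (4 * q) (x c) + E) +
                ENNReal.ofReal B * (EJ_p k x b * EJ_I (4 * q) (x b))) := by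
              rw [Finset.mul_sum]
              refine Finset.sum_le_sum fun b hb' => ?_
              have hb := mem_range.1 hb'
              rcases (hx0 b hb).eq_or_lt with h1 | h1
              · rw [EJ_p_zero h1.symm]
                simp
              rw [mul_left_comm]
              refine (mul_le_mul' le_rfl (H lam h k x c b hl hx hm hc hb h0 h1 hd)).trans
                (le_of_eq ?_)
              ring
          _ = (∑ b ∈ range k, EJ_p k x b) * (ENNReal.ofReal B * EJ_I (4 * q) (x c) + E) +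
                ENNReal.ofReal B * T := by
              rw [Finset.sum_add_distrib, Finset.sum_mul, hT, Finset.mul_sum]
          _ ≤ (ENNReal.ofReal B * EJ_I (4 * q) (x c) + E) + ENNReal.ofReal B * T :=
              add_le_add (mul_le_of_le_one_left' (EJ_p_sum hx0)) le_rfl
          _ = _ := by ring
      rw [mul_left_comm]
      refine (mul_le_mul' le_rfl inner).trans (le_of_eq ?_)
      ring
    · refine le_trans ?_ le_self_add
      have e1 : (h : ℝ≥0∞) ≤ 2 * ENNReal.ofReal (dl h (x c)) := by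
        rw [← ENNReal.ofReal_ofNat, ← ENNReal.ofReal_mul (by positivity),
          ← ENNReal.ofReal_natCast]
        exact ENNReal.ofReal_le_ofReal (by linarith)
      calc _ ≤ (2 * ENNReal.ofReal (dl h (x c))) ^ q *
            EJ_A K η (ee (lam * η / (K + 1))) k c x :=
            mul_le_mul' (by gcongr) (EJ_case1 h2 K hη hl hx hm hc)
        _ = _ := by ring
  have hTw : T ≤ ∑ c ∈ range k, ENNReal.ofReal (1 / (1 + sib x k c)) * EJ_I (4 * q) (x c) :=
    Finset.sum_le_sum fun c hc => mul_le_mul' (EJ_p_le hx (mem_range.1 hc)) le_rfl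
  rw [Finset.mul_sum]
  refine (Finset.sum_le_sum step).trans ?_
  rw [Finset.sum_add_distrib, Finset.sum_add_distrib, ← Finset.mul_sum, ← Finset.mul_sum,
    ← Finset.sum_mul, ← hT]
  refine add_le_add le_rfl ?_
  calc _ ≤ ENNReal.ofReal B * T + (ENNReal.ofReal B * T + E) :=
        add_le_add le_rfl (mul_le_of_le_one_left' (EJ_p_sum hx0))
    _ = 2 * ENNReal.ofReal B * T + E := by ring
    _ ≤ _ := by gcongr

lemma EJ_chernoff (q : ℕ) {γ0 π0 : ℝ} (hπ : 0 < π0) :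
    ∃ B : ℝ, ∀ (μ : PMF ℕ) (ν : PMF (ℝ × ℝ)) (h : ℕ),
      ENNReal.ofReal π0 ≤ EL ν (fun x => if γ0 ≤ x.1 then 1 else 0) →
      EL ν (fun x => if 0 < dl h x then 1 else 0) ≤ ENNReal.ofReal (π0 / 2) →
      EZ μ ν (EJ_E q γ0 π0 h) ≤ ENNReal.ofReal B := by
  classical
  obtain ⟨B, hB, H⟩ := EJ_powexp (c := π0 / 8) (by positivity) (2 * q)
  refine ⟨B, fun μ ν h a1 a2 => ?_⟩
  let w : ℝ × ℝ → ℝ≥0∞ := fun y => if γ0 ≤ y.1 ∧ dl h y ≤ 0 then ee 1 else 1
  let a : ℝ≥0∞ := EL ν fun y => if γ0 ≤ y.1 ∧ dl h y ≤ 0 then 1 else 0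
  have b1 : ENNReal.ofReal (π0 / 2) ≤ a := by
    have e : ENNReal.ofReal (π0 / 2) + ENNReal.ofReal (π0 / 2) ≤ a + ENNReal.ofReal (π0 / 2) := by
      rw [← ENNReal.ofReal_add (by positivity) (by positivity), add_halves]
      refine a1.trans (le_trans ?_ (add_le_add le_rfl a2))
      rw [← EL_add]
      refine EL_mono _ fun y => ?_
      by_cases c1 : γ0 ≤ y.1 <;> by_cases c2 : 0 < dl h y <;> simp [c1, c2, not_le.2, not_lt.1]
    exact (ENNReal.add_le_add_iff_right ENNReal.ofReal_ne_top).1 e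
  have hee : ee 1 ≤ ENNReal.ofReal (1 / 2) := by
    have := EJ_one_sub_exp zero_le_one
    rw [min_self] at this
    exact ENNReal.ofReal_le_ofReal (by linarith)
  have b2 : EL ν w + ENNReal.ofReal (1 / 2) * a ≤ 1 := by
    rw [← EL_const_mul, ← EL_add]
    refine EL_le_const _ fun y _ => ?_
    by_cases c1 : γ0 ≤ y.1 ∧ dl h y ≤ 0
    · simp only [w, if_pos c1, mul_one]
      refine (add_le_add hee le_rfl).trans (le_of_eq ?_)
      rw [← ENNReal.ofReal_add (by positivity) (by positivity)]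
      norm_num
    · simp only [w, if_neg c1, mul_zero, add_zero, le_refl]
  have b3 : EL ν w ≤ ee (π0 / 4) := by
    have e : EL ν w + ENNReal.ofReal (π0 / 4) ≤ ee (π0 / 4) + ENNReal.ofReal (π0 / 4) := by
      refine le_trans (add_le_add le_rfl ?_) (b2.trans ?_)
      · refine le_trans (le_of_eq ?_) (mul_le_mul' le_rfl b1)
        rw [← ENNReal.ofReal_mul (by positivity)]
        congr 1
        ring
      · unfold ee
        rw [← ENNReal.ofReal_add (by positivity) (by positivity), ← ENNReal.ofReal_one]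
        refine ENNReal.ofReal_le_ofReal ?_
        have := Real.add_one_le_exp (-(π0 / 4))
        linarith
    exact (ENNReal.add_le_add_iff_right ENNReal.ofReal_ne_top).1 e
  refine EL_le_const _ fun k _ => ?_
  have pt : ∀ x : ℕ → ℝ × ℝ, EJ_E q γ0 π0 h k x ≤
      ((k : ℝ≥0∞) ^ (2 * q) * ee (-(π0 * k / 8))) * ∏ i ∈ range k, w (x i) := by
    intro x
    unfold EJ_E
    split_ifs with hc
    · have e : ∏ i ∈ range k, w (x i) = ee ((EJ_G γ0 h k x).card : ℝ) := by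
        rw [Finset.prod_ite, Finset.prod_const_one, mul_one, ← ee_sum]
        simp [EJ_G]
      rw [e, mul_assoc, ← ee_add]
      refine le_mul_of_one_le_right' ?_
      rw [← ee_zero]
      exact ee_anti (by linarith)
    · exact zero_le
  refine (EL_mono _ pt).trans ?_
  rw [EL_const_mul, EL_prod' (fun _ => ν) _ (List.range k) (range k)
    (fun i hi => List.mem_range.2 (mem_range.1 hi)) (fun _ => w)]
  have e2 : ∏ _i ∈ range k, EL ν w ≤ ee (∑ _i ∈ range k, π0 / 4) := by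
    rw [ee_sum]
    exact Finset.prod_le_prod' fun _ _ => b3
  refine (mul_le_mul' le_rfl e2).trans ?_
  rw [mul_assoc, ← ee_add]
  unfold ee
  rw [EJ_cast]
  refine ENNReal.ofReal_le_ofReal (le_trans (le_of_eq ?_) (H k (by positivity)))
  congr 2
  simp
  ring

lemma EJ_A_mean (μ : PMF ℕ) (ν : PMF (ℝ × ℝ)) (K : ℕ) (η : ℝ) (e : ℝ≥0∞) :
    EZ μ ν (fun k x => ∑ c ∈ range k, EJ_A K η e k c x) ≤
      EZ μ ν (fun k x => ∑ i ∈ range k,
        if K < k then ENNReal.ofReal (1 / (1 + sib x k i)) else 0) +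
      (K * K) * (ENNReal.ofReal η * EL ν (EJ_I 1) + e) := by
  have e0 : (fun k x => ∑ c ∈ range k, EJ_A K η e k c x) = fun k x =>
      (∑ i ∈ range k, if K < k then ENNReal.ofReal (1 / (1 + sib x k i)) else 0) +
      ∑ c ∈ range k, if K < k then 0 else
        ∑ b ∈ (range k).erase c, (ENNReal.ofReal η * EJ_I 1 (x b) + e) := by
    funext k x
    exact Finset.sum_add_distrib
  rw [e0, EZ_add]
  refine add_le_add le_rfl ?_
  have e1 := EZ_child μ ν (fun k _ _ => if K < k then 0 else (K : ℝ≥0∞)) (fun _ _ _ _ => rfl)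
    (fun y => ENNReal.ofReal η * EJ_I 1 y + e)
  rw [EL_add, EL_const_mul, EL_const] at e1
  refine le_trans (EZ_mono _ _ fun k x _ => ?_) (e1.le.trans (mul_le_mul' ?_ le_rfl))
  · by_cases hK : K < k
    · simp [hK]
    · simp only [if_neg hK]
      rw [← Finset.mul_sum]
      calc _ ≤ ∑ _c ∈ range k, ∑ b ∈ range k, (ENNReal.ofReal η * EJ_I 1 (x b) + e) :=
            Finset.sum_le_sum fun c _ => Finset.sum_le_sum_of_subset (erase_subset _ _)
        _ = k * ∑ b ∈ range k, (ENNReal.ofReal η * EJ_I 1 (x b) + e) := by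
            rw [Finset.sum_const, card_range, nsmul_eq_mul]
        _ ≤ _ := mul_le_mul' (by exact_mod_cast not_lt.1 hK) le_rfl
  · rw [EZ_fst μ ν fun k => ∑ _i ∈ range k, if K < k then 0 else (K : ℝ≥0∞)]
    refine EL_le_const _ fun k _ => ?_
    by_cases hK : K < k
    · simp [hK]
    · simp only [if_neg hK]
      rw [Finset.sum_const, card_range, nsmul_eq_mul]
      exact mul_le_mul' (by exact_mod_cast not_lt.1 hK) le_rfl

theorem EJ_thm (hE : EnvStmt) (h2 : D2Stmt) (h3 : D3Stmt) : EJStmt := by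
  intro μ σ0 hσ hμ q _
  obtain ⟨hG, ⟨γ0, π0, hγ, -, hπ, -, hπ0⟩, hK, ⟨κ, hκ, hκ0⟩, -⟩ := hE μ σ0 hσ hμ
  obtain ⟨G1, hG1, hG1'⟩ := hG 1
  obtain ⟨G4, hG4, hG4'⟩ := hG (4 * q)
  obtain ⟨B, HB⟩ := EJ_point h2 h3 q hγ hπ
  obtain ⟨B2, HB2⟩ := EJ_chernoff q (γ0 := γ0) hπ
  refine ⟨ENNReal.ofReal (π0 / 2), 2 * ENNReal.ofReal B * (κ * G4) + ENNReal.ofReal B2,
    (ENNReal.ofReal_pos.2 (by positivity)).ne', by finiteness, fun ε hε => ?_⟩
  set δ : ℝ≥0∞ := ε / (2 ^ q * 3) with hδ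
  have hδ0 : δ ≠ 0 := (ENNReal.div_pos hε (by finiteness)).ne'
  obtain ⟨K, HK⟩ := hK δ hδ0
  obtain ⟨η, hη, Hη⟩ := ENNReal.exists_nnreal_pos_mul_lt
    (a := (K * K : ℝ≥0∞) * G1) (by finiteness) hδ0
  obtain ⟨θ, hθ, Hθ⟩ := ENNReal.exists_nnreal_pos_mul_lt (a := (K * K : ℝ≥0∞)) (by finiteness) hδ0
  have hη' : (0 : ℝ) < η := hη
  have hθ' : (0 : ℝ) < θ := hθ
  refine ⟨-Real.log θ * (K + 1) / η, fun lam hl0 hl ν hν h hs hp => ?_⟩
  have he : ee (lam * η / (K + 1)) ≤ θ := by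
    unfold ee
    rw [← ENNReal.ofReal_coe_nnreal]
    refine ENNReal.ofReal_le_ofReal ?_
    rw [← Real.le_log_iff_exp_le hθ']
    rw [div_le_iff₀ hη'] at hl0
    have : -Real.log θ ≤ lam * η / (K + 1) := by
      rw [le_div_iff₀ (by positivity)]
      exact hl0
    linarith
  rw [← EZ_const_mul]
  refine (EZ_mono _ _ fun k x hx => HB K η lam h k x hη' hl (fun i hi => hν.box h _ (hx i hi))
    fun i hi => (hs _ (hx i hi)).1).trans ?_
  rw [EZ_add, EZ_add, EZ_const_mul, EZ_const_mul,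
    EZ_child μ (ν h) (fun k c x => EJ_A K η (ee (lam * η / (K + 1))) k c x)
      (fun k i x a => EJ_A_update _ _ _ k i x a) (fun y => ENNReal.ofReal (dl h y) ^ q),
    EZ_child μ (ν h) (fun k c x => ENNReal.ofReal (1 / (1 + sib x k c)))
      (fun k i x a => by rw [sib_update]) (EJ_I (4 * q))]
  refine add_le_add ?_ (add_le_add
    (mul_le_mul' le_rfl (mul_le_mul' (hκ0 ν hν h) (hG4' ν hν h))) (HB2 μ (ν h) h (hπ0 ν hν h) hp))
  rw [← mul_assoc]
  refine mul_le_mul' ?_ le_rfl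
  have hA : EZ μ (ν h) (fun k x => ∑ c ∈ range k, EJ_A K η (ee (lam * η / (K + 1))) k c x) ≤
      3 * δ := by
    refine (EJ_A_mean _ _ _ _ _).trans ?_
    have e1 : (K * K : ℝ≥0∞) * (ENNReal.ofReal η * EL (ν h) (EJ_I 1)) ≤ δ := by
      refine le_trans ?_ Hη.le
      rw [ENNReal.ofReal_coe_nnreal, mul_left_comm]
      exact mul_le_mul' le_rfl (mul_le_mul' le_rfl (hG1' ν hν h))
    have e2 : (K * K : ℝ≥0∞) * ee (lam * η / (K + 1)) ≤ δ := by
      refine le_trans ?_ Hθ.le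
      rw [mul_comm]
      exact mul_le_mul' he le_rfl
    rw [mul_add]
    refine (add_le_add (HK ν hν h) (add_le_add e1 e2)).trans (le_of_eq ?_)
    ring
  refine (mul_le_mul' le_rfl hA).trans ?_
  rw [← mul_assoc, hδ]
  exact ENNReal.mul_div_le

end Pool.Agent.H109Z.FrogGW
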